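import Pool.Agent.P8H28.SE.Pws
import Pool.Agent.P8H28.SQ.Fin3

/-!
# The two forms of the definitions
-/

set_option linter.unusedSectionVars false

open CategoryTheory AlgebraicGeometry TensorProduct

universe u

namespace Pool.Agent.P8H28.SE

open Pool.Agent.H914 Pool.Agent.H914.VarClass Pool.Agent.H914.VarClass.Obj
open Pool.Agent.Y133.Half (pw)
open Pool.Agent.Y121.AHS (HodgeTheory IsHodge)
open Pool.Agent.Y121.AH (em)
open Pool.Agent.N996.FP

attribute [local instance] SQ.algBase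

variable {k : Type u} [Field k] {𝒱 : VarClass k} {ops : CycleOps 𝒱}

theorem dim_pw (X : 𝒱.Obj) (n : ℕ) : (pw X n).dim = X.dim * (n + 1) := by
  induction n with
  | zero => rw [zero_add, mul_one]; rfl
  | succ n ih =>
    have h1 : (pw X (n + 1)).dim = (pw X n).dim + X.dim := dim_prod (pw X n) X
    rw [h1, ih]
    ring

section One

variable {W : WeilCohomology.{u, 0} ops} {X : 𝒱.Obj} {L : Type} [Field L] [Algebra W.K L]

/-- The character as a homomorphism to the units. -/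
noncomputable def chi {K : Type} [Field K] {T : Tower K} {d : ℕ} (G : Galois T d) : G.Γ →* Kˣ :=
  MonoidHom.toHomUnits ⟨⟨G.χ, G.one⟩, G.mul⟩

theorem chi_val {K : Type} [Field K] {T : Tower K} {d : ℕ} (G : Galois T d) (g : G.Γ) :
    (chi G g : K) = G.χ g := rfl

theorem tr_rho (G : Galois (ext (powers W X) L) X.dim) (n : ℕ) (g : G.Γ)
    (c : (baseW W L).H (pw X n)) : (baseW W L).tr (pw X n) (G.ρ n g c) =
      (show (baseW W L).K from G.χ g) ^ (pw X n).dim * (baseW W L).tr (pw X n) c := by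
  refine SQ.gr_ind (W := baseW W L) (X := pw X n) (P := fun c => (baseW W L).tr (pw X n)
    ((show (baseW W L).H (pw X n) from G.ρ n g c)) =
      (show (baseW W L).K from G.χ g) ^ (pw X n).dim * (baseW W L).tr (pw X n) c) ?_ ?_ c
  · intro i a ha
    have hga : (show (baseW W L).H (pw X n) from G.ρ n g a) ∈ (baseW W L).gr (pw X n) i :=
      G.gr n g i a ha
    by_cases hi : i = 2 * (pw X n).dim
    · subst hi
      have h1 := G.top n g a (by rw [← dim_pw]; exact ha)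
      rw [← dim_pw] at h1
      have h2 : (show (baseW W L).H (pw X n) from G.ρ n g a) =
        ((show (baseW W L).K from G.χ g) ^ (pw X n).dim) • (show (baseW W L).H (pw X n) from a) := h1
      rw [h2, map_smul, smul_eq_mul]
    · rw [(baseW W L).tr_eq_zero hga hi, (baseW W L).tr_eq_zero ha hi, mul_zero]
  · intro a b ha hb
    have h1 : (show (baseW W L).H (pw X n) from G.ρ n g (a + b)) =
      (show (baseW W L).H (pw X n) from G.ρ n g a) + (show (baseW W L).H (pw X n) from G.ρ n g b) :=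
      map_add (G.ρ n g) a b
    rw [h1, map_add, map_add, ha, hb, mul_add]

/-- The group action. -/
noncomputable def toSQ (G : Galois (ext (powers W X) L) X.dim) :
    SQ.GaloisPowers (baseW W L) X where
  Γ := G.Γ
  group := G.group
  χ := chi G
  ρ n := G.ρ n
  gr n g i c hc := G.gr n g i c hc
  tr n g c := tr_rho G n g c
  fst n g c := G.p n g c
  snd n g c := G.q n g c

theorem isTate_iff (G : Galois (ext (powers W X) L) X.dim) (n j : ℕ)
    (c : (baseW W L).H (pw X n)) : SQ.IsTate (toSQ G) n j c ↔ c ∈ tate G n j := Iff.rfl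

theorem semisimple_of {G : Galois (ext (powers W X) L) X.dim} (h : VirtSemisimple (G.ρ 0)) :
    SQ.Semisimple (toSQ G) := h

theorem kc_iff (i j : ℕ) (c : (baseW W L).H (pw X 1)) :
    c ∈ SQ.KC (baseW W L) X X i j ↔ Mem (Prods ((ext (powers W X) L).p 0)
      ((ext (powers W X) L).q 0) ((ext (powers W X) L).gr 0 i) ((ext (powers W X) L).gr 0 j)) c :=
  Iff.rfl

variable {Ω : Type} [Field Ω] [Algebra L Ω]

theorem generate_of {G : Galois (ext (powers W X) L) X.dim} (h : WeakHodgeGenerate G Ω) :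
    SQ.WeakHodgeGenerate (toSQ G) Ω := by
  intro n U hU
  refine h n U fun N hN => ?_
  let N' : SQ.WeakHodge (toSQ G) Ω :=
    { N := N
      der := fun n => (hN.1.1 n).1
      fst := fun n => (hN.1.1 n).2.1
      snd := fun n => (hN.1.1 n).2.2
      idem := fun v hv => ⟨hN.1.2 v hv, hN.2.1 v hv⟩
      tate := fun n j c hc => by
        have h1 := hN.2.2 n j _ ⟨c, hc, rfl⟩
        rw [mul_one] at h1
        exact h1 }
  exact hU N'

end One

section Two

variable {T : HodgeTheory ops} {X : 𝒱.Obj} {L : Type} [Field L] [Algebra T.W.K L]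
  {Ω : Type} [Field Ω] [Algebra L Ω]

theorem centres_of {G : Galois (ext (powers T.W X) L) X.dim}
    (h : CentresAgree G (extF (hodgeClasses T X) L) Ω) :
    SQ.CentresAgree T (toSQ G) Ω := by
  intro m N h1 h2 h3 h4 h5 h6 n j c hc
  refine h m N ⟨fun n => ⟨h1 n, h2 n, h3 n⟩, h4⟩ ?_ h5 n j _ ⟨c, hc, rfl⟩
  rintro n j _ ⟨_, ⟨c, hc, rfl⟩, rfl⟩
  exact h6 n j c hc

theorem from_iff {G : Galois (ext (powers T.W X) L) X.dim} {n j : ℕ} :
    Spans (tate G) (extF (hodgeClasses T X) L) n j ↔ SQ.TateFromHodge T (toSQ G) n j := Iff.rfl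

theorem kfrom_of {G : Galois (ext (powers T.W X) L) X.dim} {i j : ℕ}
    (h : Combs L (tateK G i j) (extF (hodgeClasses T X) L 1 X.dim)) :
    SQ.KFrom T (toSQ G) i j := fun _ hc hK => h ⟨hc, hK⟩

theorem alg_eq (n j : ℕ) : (extF (algClasses T.W X) L n j : Set ((baseW T.W L).H (pw X n))) =
    {x | ∃ z, (pw X n).IsCyc j z ∧ (baseW T.W L).cl (pw X n) z = x} := by
  ext x
  constructor
  · rintro ⟨_, ⟨z, hz, rfl⟩, rfl⟩
    exact ⟨z, hz, rfl⟩
  · rintro ⟨z, hz, rfl⟩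
    exact ⟨_, ⟨z, hz, rfl⟩, rfl⟩

theorem ktate_of {G : Galois (ext (powers T.W X) L) X.dim} {i j : ℕ}
    (h : Combs L (tateK G i j) (extF (algClasses T.W X) L 1 X.dim)) :
    SQ.KTate (toSQ G) i j := by
  intro c hc hK
  have h1 := h ⟨hc, hK⟩
  rw [← alg_eq]
  exact h1

theorem tc_iff {G : Galois (ext (powers T.W X) L) X.dim} {n : ℕ} :
    (∀ j, Spans (tate G) (extF (algClasses T.W X) L) n j) ↔ SQ.TateConjecture (toSQ G) n := by
  constructor
  · intro h j c hc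
    have h2 := h j hc
    rw [← alg_eq]
    exact h2
  · intro h j c hc
    have h2 := h j c hc
    rw [← alg_eq] at h2
    exact h2

attribute [local instance] Pool.Agent.P8H28.SQ.algBase

/-- **The middle cohomology decides.** -/
theorem middle (T : HodgeTheory ops) (X : 𝒱.Obj) (ψ : RForm T.W X)
    (hψ : IsPolarisation T X ψ) (hX : OfAbelianType T X) (ℓ : ℕ) [Fact ℓ.Prime]
    [Algebra T.W.K ℚ_[ℓ]] (G : Galois (powersL T ℚ_[ℓ] X) X.dim)
    (deligne : ∀ n j, extF (hodgeClasses T X) ℚ_[ℓ] n j ⊆ tate G n j)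
    (faltings : VirtSemisimple (G.ρ 0))
    (faltings' : Combs ℚ_[ℓ] (tateK G (2 * X.dim - 1) 1) (extF (hodgeClasses T X) ℚ_[ℓ] 1 X.dim))
    (pink : WeakHodgeGenerate G (AlgebraicClosure ℚ_[ℓ]))
    (centres : SelfAdjointCentre T X ψ ∨
      CentresAgree G (extF (hodgeClasses T X) ℚ_[ℓ]) (AlgebraicClosure ℚ_[ℓ]))
    (h : Combs ℚ_[ℓ] (tateK G X.dim X.dim) (extF (hodgeClasses T X) ℚ_[ℓ] 1 X.dim)) :
    ∀ n j : ℕ, Spans (tate G) (extF (hodgeClasses T X) ℚ_[ℓ]) n j := by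
  intro n j
  have i1 : Algebra.IsAlgebraic (baseW T.W ℚ_[ℓ]).K (AlgebraicClosure ℚ_[ℓ]) :=
    inferInstanceAs (Algebra.IsAlgebraic ℚ_[ℓ] (AlgebraicClosure ℚ_[ℓ]))
  let G' : Galois (ext (powers T.W X) ℚ_[ℓ]) X.dim := G
  have hD : SQ.HodgeAreTate T (toSQ G') := fun n j c hc => deligne n j ⟨c, hc, rfl⟩
  have hF : SQ.KFrom T (toSQ G') (2 * X.dim - 1) 1 := kfrom_of faltings'
  have hC : (SelfAdjointCentre T X ψ ∧ SQ.KFrom T (toSQ G') (2 * X.dim - 1) 1) ∨
      SQ.CentresAgree T (toSQ G') (AlgebraicClosure ℚ_[ℓ]) :=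
    centres.imp (fun hc => ⟨hc, hF⟩) centres_of
  have hS : SQ.Semisimple (toSQ G') := semisimple_of faltings
  have hW : SQ.WeakHodgeGenerate (toSQ G') (AlgebraicClosure ℚ_[ℓ]) := generate_of pink
  exact from_iff.2 (SQ.main hX hD hS hW hψ hC (kfrom_of h) n j)

/-- **The Tate conjecture for all powers.** -/
theorem tateAll (T : HodgeTheory ops) (X : 𝒱.Obj) (ψ : RForm T.W X)
    (hψ : IsPolarisation T X ψ) (hX : OfAbelianType T X) (ℓ : ℕ) [Fact ℓ.Prime]
    [Algebra T.W.K ℚ_[ℓ]] (G : Galois (powersL T ℚ_[ℓ] X) X.dim)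
    (deligne : ∀ n j, extF (hodgeClasses T X) ℚ_[ℓ] n j ⊆ tate G n j)
    (faltings : VirtSemisimple (G.ρ 0))
    (faltings' : Combs ℚ_[ℓ] (tateK G (2 * X.dim - 1) 1) (extF (hodgeClasses T X) ℚ_[ℓ] 1 X.dim))
    (pink : WeakHodgeGenerate G (AlgebraicClosure ℚ_[ℓ]))
    (centres : SelfAdjointCentre T X ψ ∨
      CentresAgree G (extF (hodgeClasses T X) ℚ_[ℓ]) (AlgebraicClosure ℚ_[ℓ]))
    (N : ℕ) (hN : (SelfAdjointCentre T X ψ ∧ N = 2) ∨
      (EqualTraces T X ∧ N = max 2 (2 * X.dim)) ∨ N = max 4 (2 * X.dim ^ (2 * X.dim)))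
    (hodge : ∀ j, hodgeClasses T X (N - 1) j ⊆ algClasses T.W X (N - 1) j)
    (tateM : Combs ℚ_[ℓ] (tateK G X.dim X.dim) (extF (algClasses T.W X) ℚ_[ℓ] 1 X.dim))
    (n j : ℕ) : Spans (tate G) (extF (algClasses T.W X) ℚ_[ℓ]) n j ∧
      hodgeClasses T X n j ⊆ algClasses T.W X n j := by
  have i1 : Algebra.IsAlgebraic (baseW T.W ℚ_[ℓ]).K (AlgebraicClosure ℚ_[ℓ]) :=
    inferInstanceAs (Algebra.IsAlgebraic ℚ_[ℓ] (AlgebraicClosure ℚ_[ℓ]))
  let G' : Galois (ext (powers T.W X) ℚ_[ℓ]) X.dim := G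
  have hD : SQ.HodgeAreTate T (toSQ G') := fun n j c hc => deligne n j ⟨c, hc, rfl⟩
  have hF : SQ.KFrom T (toSQ G') (2 * X.dim - 1) 1 := kfrom_of faltings'
  have hC : (SelfAdjointCentre T X ψ ∧ SQ.KFrom T (toSQ G') (2 * X.dim - 1) 1) ∨
      SQ.CentresAgree T (toSQ G') (AlgebraicClosure ℚ_[ℓ]) :=
    centres.imp (fun hc => ⟨hc, hF⟩) centres_of
  have hS : SQ.Semisimple (toSQ G') := semisimple_of faltings
  have hW : SQ.WeakHodgeGenerate (toSQ G') (AlgebraicClosure ℚ_[ℓ]) := generate_of pink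
  have hM : SQ.KTate (toSQ G') X.dim X.dim := ktate_of tateM
  have h1 := SQ.main_tate hX hD hS hW hψ hC hN (fun j c hc => hodge j hc) hM n
  exact ⟨tc_iff.2 h1.1 j, fun c hc => h1.2 j c hc⟩

end Two

end Pool.Agent.P8H28.SE
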