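import Mathlib

/-!
# Towers of graded algebras, group actions, Tate classes, weak Hodge operators

In the intended use `A n` is the cohomology of the product of `n + 1` copies of an abelian variety
`X`, over an algebraically closed field `k`, of dimension `d`, with a model over a field `k₁` which is
finitely generated over `ℚ`, and the group is the Galois group of `k` over `k₁`. Tate twists are
suppressed.
-/

open TensorProduct

namespace Pool.Agent.P8H28.SE

section Algebras

variable (K A B C : Type) [Field K] [Ring A] [Algebra K A] [Ring B] [Algebra K B] [Ring C]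
  [Algebra K C]

/-- Homomorphisms of algebras. -/
abbrev Hom := A →ₐ[K] B

/-- Linear operators. -/
abbrev Op := A →ₗ[K] A

/-- Subspaces. -/
abbrev Sub := Submodule K A

/-- Actions of the group `Γ` on the algebra `A`. -/
abbrev Act (Γ : Type) [Group Γ] := Γ →* (A ≃ₐ[K] A)

variable {K A B C}

/-- The element belongs to the subspace. -/
def Mem (U : Sub K A) (c : A) : Prop := c ∈ U

/-- The elements of `S` are linear combinations of elements of `S'`. -/
def Combs (K : Type) [Field K] [Algebra K A] (S S' : Set A) : Prop := S ⊆ Submodule.span K S'

/-- The linear combinations of products `f a * g b` with `a` in `U` and `b` in `U'`. -/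
def Prods (f : Hom K A C) (g : Hom K B C) (U : Sub K A) (U' : Sub K B) : Sub K C :=
  Submodule.span K {x | ∃ a ∈ U, ∃ b ∈ U', x = f a * g b}

/-- The operator is a derivation. -/
def Deriv (D : Op K A) : Prop := ∀ a b, D (a * b) = D a * b + a * D b

/-- The homomorphism commutes with the operators. -/
def Inter (f : Hom K A B) (D : Op K A) (E : Op K B) : Prop := ∀ c, E (f c) = f (D c)

/-- The operator preserves the subspace. -/
def Pres (D : Op K A) (U : Sub K A) : Prop := ∀ x ∈ U, D x ∈ U

/-- The operators commute on the subspace. -/
def CommOn (U : Sub K A) (D E : Op K A) : Prop := ∀ v ∈ U, D (E v) = E (D v)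

/-- The operator is idempotent on the subspace. -/
def IdemOn (U : Sub K A) (D : Op K A) : Prop := ∀ v ∈ U, D (D v) = D v

/-- The value of a homomorphism. -/
def val.{u} {Z : Type u} [AddCommGroup Z] (f : Z →+ A) (z : Z) : A := f z

/-- The element is an eigenvector. -/
def Eig (D : Op K A) (r : K) (c : A) : Prop := D c = r • c

/-- The operator given by an element of the group. -/
def opOf {Γ : Type} [Group Γ] (ρ : Act K A Γ) (g : Γ) : Op K A := (ρ g).toLinearMap

/-- For every subgroup of finite index, every stable subspace has a stable complement. -/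
def VirtSemisimple {Γ : Type} [Group Γ] (ρ : Act K A Γ) : Prop :=
  ∀ Δ : Subgroup Γ, Δ.FiniteIndex → ∀ U : Sub K A, (∀ g ∈ Δ, Pres (opOf ρ g) U) →
    ∃ U' : Sub K A, (∀ g ∈ Δ, Pres (opOf ρ g) U') ∧ IsCompl U U'

/-- The extension of an operator. -/
noncomputable def exOp (D : Op K A) (L : Type) [Field L] [Algebra K L] : Op L (L ⊗[K] A) :=
  D.baseChange L

/-- The elements `1 ⊗ c`. -/
def exSet (S : Set A) (K L : Type) [Field K] [Algebra K A] [Field L] [Algebra K L] :
    Set (L ⊗[K] A) :=
  {x | ∃ c ∈ S, x = (1 : L) ⊗ₜ[K] c}

end Algebras

/-- Graded algebras `A n` over a field with homomorphisms `p n : A n → A (n + 1)` and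
`q n : A 0 → A (n + 1)`. In the intended use `p n` and `q n` are the pull-backs along the
projections from `X ^ (n + 2)` to `X ^ (n + 1)` (the first `n + 1` components) and to `X` (the last
component). -/
structure Tower (K : Type) [Field K] where
  /-- the algebras -/
  A : ℕ → Type
  [ring : ∀ n, Ring (A n)]
  [alg : ∀ n, Algebra K (A n)]
  /-- the gradings -/
  gr : ∀ n, ℕ → Sub K (A n)
  /-- the first maps -/
  p : ∀ n, Hom K (A n) (A (n + 1))
  /-- the second maps -/
  q : ∀ n, Hom K (A 0) (A (n + 1))

attribute [instance] Tower.ring Tower.alg

variable {K : Type} [Field K]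

/-- Sets `C n j` of elements of `A n`. -/
abbrev Family (T : Tower K) := ∀ n : ℕ, ℕ → Set (T.A n)

/-- The elements of `C n j` are linear combinations of elements of `D n j`. -/
def Spans {T : Tower K} (C D : Family T) (n j : ℕ) : Prop := Combs K (C n j) (D n j)

/-- Linear operators on the algebras. -/
abbrev Ops (T : Tower K) := ∀ n, Op K (T.A n)

/-- The operators are derivations, they commute with the maps `p` and `q`, and they preserve the
elements of degree `1` of `A 0`. -/
def IsDer {T : Tower K} (N : Ops T) : Prop :=
  (∀ n, Deriv (N n) ∧ Inter (T.p n) (N n) (N (n + 1)) ∧ Inter (T.q n) (N 0) (N (n + 1))) ∧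
    Pres (N 0) (T.gr 0 1)

/-- The tower with coefficients extended to `L`. -/
noncomputable def ext (T : Tower K) (L : Type) [Field L] [Algebra K L] : Tower L where
  A n := L ⊗[K] T.A n
  gr n i := (T.gr n i).baseChange L
  p n := Algebra.TensorProduct.map (AlgHom.id L L) (T.p n)
  q n := Algebra.TensorProduct.map (AlgHom.id L L) (T.q n)

/-- The elements `1 ⊗ c`. -/
def extF {T : Tower K} (C : Family T) (L : Type) [Field L] [Algebra K L] : Family (ext T L) :=
  fun n j => exSet (C n j) K L

/-- The operators multiply the elements of `C n j` by `j m`. -/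
def Scales {T : Tower K} (N : Ops T) (m : K) (C : Family T) : Prop :=
  ∀ n j, ∀ c ∈ C n j, Eig (N n) (j * m) c

/-- A group `Γ` with a character `χ` which acts on the algebras `A n`; the actions preserve the degrees
and commute with the maps `p` and `q`, and the action on the degree `2 d (n + 1)` of `A n` is given
by `χ ^ (d (n + 1))`. -/
structure Galois (T : Tower K) (d : ℕ) where
  /-- the group -/
  Γ : Type
  [group : Group Γ]
  /-- the character -/
  χ : Γ → K
  one : χ 1 = 1
  mul : ∀ g h, χ (g * h) = χ g * χ h
  /-- the action -/
  ρ : ∀ n, Act K (T.A n) Γ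
  p : ∀ n g, Inter (T.p n) (opOf (ρ n) g) (opOf (ρ (n + 1)) g)
  q : ∀ n g, Inter (T.q n) (opOf (ρ 0) g) (opOf (ρ (n + 1)) g)
  gr : ∀ n g i, Pres (opOf (ρ n) g) (T.gr n i)
  top : ∀ n g c, Mem (T.gr n (2 * (d * (n + 1)))) c → Eig (opOf (ρ n) g) (χ g ^ (d * (n + 1))) c

attribute [instance] Galois.group

/-- The property `P g` holds for the elements `g` of some subgroup of finite index. -/
def Virtually {Γ : Type} [Group Γ] (P : Γ → Prop) : Prop :=
  ∃ Δ : Subgroup Γ, Δ.FiniteIndex ∧ ∀ g ∈ Δ, P g

variable {T : Tower K} {d : ℕ}

/-- The action on the algebras. -/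
def act (G : Galois T d) (g : G.Γ) : Ops T := fun n => opOf (G.ρ n) g

/-- The Tate classes of codimension `j`: the elements of degree `2 j` on which some subgroup of finite
index acts by `χ ^ j`. -/
def tate (G : Galois T d) : Family T := fun n j =>
  {c | Mem (T.gr n (2 * j)) c ∧ Virtually fun g => Eig (act G g n) (G.χ g ^ j) c}

/-- The Tate classes of codimension `d` on `X × X` in the Künneth component `H^i(X) ⊗ H^j(X)`. -/
def tateK (G : Galois T d) (i j : ℕ) : Set (T.A 1) :=
  {c | c ∈ tate G 1 d ∧ Mem (Prods (T.p 0) (T.q 0) (T.gr 0 i) (T.gr 0 j)) c}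

/-- The action of `g` on the algebras with coefficients extended to `Ω`. -/
noncomputable def extOps (N : Ops T) (Ω : Type) [Field Ω] [Algebra K Ω] : Ops (ext T Ω) :=
  fun n => exOp (N n) Ω

/-- A *weak Hodge operator*, with coefficients in `Ω`: a family of derivations `N n` of the
cohomology algebras of the powers of `X`, compatible with the pull-backs along the projections, whose
restriction to `H^1(X)` is an idempotent, and which multiply the Tate classes of codimension `j`
by `j`. (The operator `N` with the eigenvalue `p` on `H^(p,q)` has these properties if Hodge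
classes and Tate classes are the same. In general the weak Hodge operators are the idempotents `N` of
the Lie algebra of the algebraic monodromy group for which `t ↦ t ^ N` is a weak Hodge
cocharacter.) -/
def IsWeakHodge (G : Galois T d) (Ω : Type) [Field Ω] [Algebra K Ω] (N : Ops (ext T Ω)) : Prop :=
  IsDer N ∧ IdemOn ((ext T Ω).gr 0 1) (N 0) ∧ Scales N 1 (extF (tate G) Ω)

/-- The weak Hodge operators generate the connected monodromy group: every subspace of the
cohomology of a power of `X` which is stable under all weak Hodge operators is stable under a subgroup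
of finite index. -/
def WeakHodgeGenerate (G : Galois T d) (Ω : Type) [Field Ω] [Algebra K Ω] : Prop :=
  ∀ n U, (∀ N, IsWeakHodge G Ω N → Pres (N n) U) →
    Virtually fun g => Pres (extOps (act G g) Ω n) U

/-- The statement that, if `C` are the Hodge classes, the Mumford-Tate group and the algebraic
monodromy group have the same centre, up to finite index: let `N n` be derivations of the cohomology
algebras of the powers of `X`, compatible with the pull-backs along the projections, which preserve
`H^1(X)`, commute there with a subgroup of finite index, and multiply the classes of codimension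
`j` in `C` by `j m`. Then they multiply the Tate classes of codimension `j` by `j m`. (This is a
theorem for abelian varieties: Serre, Vasiu, Ullmo-Yafaev.) -/
def CentresAgree (G : Galois T d) (C : Family T) (Ω : Type) [Field Ω] [Algebra K Ω] : Prop :=
  ∀ m N, IsDer N → Scales N m (extF C Ω) →
    (Virtually fun g => CommOn ((ext T Ω).gr 0 1) (N 0) (extOps (act G g) Ω 0)) →
    Scales N m (extF (tate G) Ω)

end Pool.Agent.P8H28.SE
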