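import Pool.Agent.Y121.AHS.Defs
import Pool.Agent.Y133.Half.PwDefs
import Pool.Agent.P8H28.SE.Tower

/-!
# The cohomology of the powers of a variety
-/

open CategoryTheory AlgebraicGeometry

universe u

namespace Pool.Agent.P8H28.SE

open Pool.Agent.H914 Pool.Agent.H914.VarClass Pool.Agent.H914.VarClass.Obj
open Pool.Agent.Y133.Half (pw)
open Pool.Agent.Y121.AHS (HodgeTheory IsHodge)

variable {k : Type u} [Field k] {𝒱 : VarClass k} {ops : CycleOps 𝒱}

/-- The cohomology of the products of `n + 1` copies of `X`. -/
noncomputable def powers (W : WeilCohomology.{u, 0} ops) (X : 𝒱.Obj) : Tower W.K where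
  A n := W.H (pw X n)
  gr n := W.gr (pw X n)
  p n := W.map (fst (pw X n) X)
  q n := W.map (snd (pw X n) X)

/-- The class of an algebraic cycle of codimension `j`. -/
def IsAlg (W : WeilCohomology.{u, 0} ops) (X : 𝒱.Obj) (j : ℕ) (c : W.H X) : Prop :=
  ∃ z, X.IsCyc j z ∧ val (W.cl X) z = c

/-- The classes of the algebraic cycles of codimension `j`. -/
def algClasses (W : WeilCohomology.{u, 0} ops) (X : 𝒱.Obj) : Family (powers W X) :=
  fun n j => {c | IsAlg W (pw X n) j c}

/-- The Hodge classes of codimension `j`. -/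
def hodgeClasses (T : HodgeTheory ops) (X : 𝒱.Obj) : Family (powers T.W X) :=
  fun n j => {c | IsHodge T (pw X n) j c}

/-- The cohomology of the powers with coefficients in `L`. -/
noncomputable def powersL (T : HodgeTheory ops) (L : Type) [Field L] [Algebra T.W.K L]
    (X : 𝒱.Obj) : Tower L := ext (powers T.W X) L

end Pool.Agent.P8H28.SE
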